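import Pool.Agent.V5helper98.TF.Mol

/-!
# The Thomas-Fermi interaction energy is not superadditive

For nuclei of charges `z_j` at distinct points `R_j` let `e(z)` be the neutral Thomas-Fermi energy
and `f(z) = e(z) - ∑ e^at(z_j)`. Then `f` is superadditive only when there is one nucleus.

Proof. Put charge `t` on two of the nuclei and `0` on the others.

* For small `t`, the nuclear repulsion `t²/D` dominates: the electrons contribute at least
  `- t²/(2D) - K t^(5/2)`, and the atomic energies are nonpositive, so `f > 0`.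
* For all `t`, `f ≤ C D⁻⁷`: a neutral atom can be squeezed into the ball of radius `l = D/2` at the
  cost `C l⁻⁷`, uniformly in its charge, and two such atoms do not interact, by Newton's theorem.
  The cost is estimated by moving the outer electrons of the atom inwards; comparing with the
  minimality of the atom also gives the decay `q(s) ≤ C s⁻³` of the charge outside radius `s`,
  because `q(4s)² ≤ C q(s)^(5/3) / s`.
* If `f` were superadditive, then `f(n z) ≥ n f(z)`, which is unbounded.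
-/

set_option autoImplicit false
open MeasureTheory Set Filter Topology Metric
open Pool.Agent.Helper557 Pool.Agent.Helper557.TFP Pool.Agent.H9R2.TF
open Pool.Agent.Results.MP_405077_mp.DilationMonotone Pool.Agent.V5helper98.TF

namespace Pool.Agent.Results.MP_f156ce_mp.NotSuperadditive

/-- The densities: nonnegative functions in `L¹ ∩ L^{5/3}` of `ℝ³`. -/
def Dens (ρ : EuclideanSpace ℝ (Fin 3) → ℝ) : Prop :=
  (∀ x, 0 ≤ ρ x) ∧ Integrable ρ ∧ Integrable (fun x => ρ x ^ (5/3 : ℝ))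

/-- The Thomas-Fermi functional of nuclei of charges `z j` at the points `R j`. -/
noncomputable def tf {k : ℕ} (z : Fin k → ℝ) (R : Fin k → EuclideanSpace ℝ (Fin 3))
    (ρ : EuclideanSpace ℝ (Fin 3) → ℝ) : ℝ :=
  3/5 * (∫ x, ρ x ^ (5/3 : ℝ)) - (∫ x, (∑ j, z j / ‖x - R j‖) * ρ x)
    + 1/2 * (∫ x, ∫ y, ρ x * ρ y / ‖x - y‖)
    + ∑ i, ∑ j ∈ Finset.Ioi i, z i * z j / ‖R i - R j‖

/-- The neutral Thomas-Fermi energy `e(z)`. -/
noncomputable def neutral {k : ℕ} (R : Fin k → EuclideanSpace ℝ (Fin 3)) (z : Fin k → ℝ) : ℝ :=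
  sInf {E | ∃ ρ, Dens ρ ∧ ∫ x, ρ x = ∑ j, z j ∧ tf z R ρ = E}

/-- The atomic energy `e^at(z)`: one nucleus of charge `z`, at the origin. -/
noncomputable def atomic (z : ℝ) : ℝ := neutral (k := 1) (fun _ => 0) (fun _ => z)

/-- `e(z) - ∑ e^at(z_j)`. -/
noncomputable def excess {k : ℕ} (R : Fin k → EuclideanSpace ℝ (Fin 3)) (z : Fin k → ℝ) : ℝ :=
  neutral R z - ∑ j, atomic (z j)

/-- Superadditivity on `ℝ^k_+`. -/
def SuperAdd {k : ℕ} (f : (Fin k → ℝ) → ℝ) : Prop :=
  ∀ z₁ z₂ : Fin k → ℝ, (∀ j, 0 ≤ z₁ j) → (∀ j, 0 ≤ z₂ j) → f z₁ + f z₂ ≤ f (z₁ + z₂)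

variable {k : ℕ}

/-- the nuclear repulsion -/
noncomputable def UU' (z : Fin k → ℝ) (R : Fin k → E3) : ℝ := ∑ i, ∑ j ∈ Finset.Ioi i, z i * z j / ‖R i - R j‖

lemma tf_eq (z : Fin k → ℝ) (R : Fin k → E3) (ρ : E3 → ℝ) : tf z R ρ = EF z R ρ + UU' z R := by
  unfold tf EF UU'
  rw [TF_E1_dbl]
  rfl

lemma tf_congr (z : Fin k → ℝ) (R : Fin k → E3) {f g : E3 → ℝ} (h : f =ᵐ[volume] g) : tf z R f = tf z R g := by
  rw [tf_eq, tf_eq, ← FE_eq, ← FE_eq, FE_congr h]

lemma neutral_set (R : Fin k → E3) (z : Fin k → ℝ) :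
    {E | ∃ ρ, Dens ρ ∧ ∫ x, ρ x = ∑ j, z j ∧ tf z R ρ = E}
      = (fun E => E + UU' z R) '' {E | ∃ ρ, Adm ρ ∧ ∫ x, ρ x = ∑ j, z j ∧ EF z R ρ = E} := by
  ext E
  constructor
  · rintro ⟨ρ, h1, h2, rfl⟩
    obtain ⟨τ, hτ, hae⟩ := AA_mod (ρ := ρ) h1
    exact ⟨EF z R τ, ⟨τ, hτ, by rw [← h2]; exact (integral_congr_ae hae).symm, rfl⟩, by
      simp only; rw [← tf_eq, tf_congr z R hae]⟩
  · rintro ⟨_, ⟨σ, h1, h2, rfl⟩, rfl⟩
    exact ⟨σ, ⟨h1.2.1, h1.2.2.1, h1.2.2.2⟩, h2, tf_eq z R σ⟩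

lemma neutral_eq (R : Fin k → E3) {z : Fin k → ℝ} (hz : ∀ j, 0 ≤ z j) :
    neutral R z = VL z R (∑ j, z j) + UU' z R := by
  have hm : Monotone (fun E : ℝ => E + UU' z R) := fun a b h => by simp only; linarith
  unfold neutral
  rw [neutral_set, ← hm.map_csInf_of_continuousAt (by fun_prop) (VL_ne z _ (Finset.sum_nonneg (fun j _ => hz j)))
    (VL_bdd hz _ _)]
  rfl

lemma atomic_eq {t : ℝ} (ht : 0 ≤ t) : atomic t = VL (k := 1) (fun _ => t) (fun _ => 0) t := by
  unfold atomic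
  rw [neutral_eq _ (fun _ => ht)]
  unfold UU'
  simp

lemma zero_adm : Adm (fun _ : E3 => (0:ℝ)) := adm_of_nice nice_zero (fun _ => le_rfl)

lemma EF_zero (z : Fin k → ℝ) (R : Fin k → E3) : EF z R (fun _ => 0) = 0 := by
  unfold EF
  simp

lemma VL0 {z : Fin k → ℝ} (hz : ∀ j, 0 ≤ z j) (R : Fin k → E3) : VL z R 0 ≤ 0 := by
  have h := VL_le (R := R) hz zero_adm
  rw [integral_zero, EF_zero] at h
  exact h

lemma atomic_nonpos {t : ℝ} (ht : 0 ≤ t) : atomic t ≤ 0 := by
  rw [atomic_eq ht]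
  exact (VL_anti (z := fun _ : Fin 1 => t) (fun _ => ht) (fun _ => 0) (mem_Ici.2 le_rfl) (mem_Ici.2 ht) ht).trans
    (VL0 (fun _ => ht) _)

lemma atomic_zero : atomic 0 = 0 := by
  refine le_antisymm (atomic_nonpos le_rfl) ?_
  rw [atomic_eq le_rfl]
  refine le_csInf (VL_ne _ _ le_rfl) ?_
  rintro E ⟨ρ, h1, _, rfl⟩
  rw [AF_eq]
  unfold AF
  have a1 : 0 ≤ ∫ x, ρ x ^ (5/3 : ℝ) := integral_nonneg (fun x => Real.rpow_nonneg (h1.2.1 x) _)
  have a2 : 0 ≤ ∫ x, ρ x * pot ρ x := integral_nonneg (fun x => mul_nonneg (h1.2.1 x) (pot_nonneg h1.2.1 x))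
  linarith

/-! ### two nuclei -/

section two_nuclei
variable (a b : Fin k)

/-- charge `t` on the nuclei `a` and `b`, charge `0` on the others -/
noncomputable def zz (t : ℝ) (j : Fin k) : ℝ := if j = a ∨ j = b then t else 0

variable {a b}

lemma zz_nonneg {t : ℝ} (ht : 0 ≤ t) (j : Fin k) : 0 ≤ zz a b t j := by
  unfold zz; split_ifs <;> simp [ht]

lemma zz_add (s t : ℝ) : zz a b s + zz a b t = zz a b (s + t) := by
  funext j
  simp only [Pi.add_apply, zz]
  split_ifs <;> simp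

lemma sum_zz (hab : a < b) (t : ℝ) (g : Fin k → ℝ) : ∑ j, zz a b t j * g j = t * g a + t * g b := by
  have e : ∀ j, zz a b t j * g j = (if j = a then t * g j else 0) + (if j = b then t * g j else 0) := by
    intro j
    unfold zz
    by_cases h1 : j = a
    · have h2 : j ≠ b := by rw [h1]; exact hab.ne
      simp [h1, hab.ne]
    · by_cases h2 : j = b
      · simp [h2, hab.ne']
      · simp [h1, h2]
  rw [Finset.sum_congr rfl (fun j _ => e j), Finset.sum_add_distrib]
  simp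

lemma sum_zz1 (hab : a < b) (t : ℝ) : ∑ j, zz a b t j = 2 * t := by
  have := sum_zz hab t (fun _ => 1)
  simp only [mul_one] at this
  rw [this]; ring

lemma VV_zz (hab : a < b) (t : ℝ) (R : Fin k → E3) (x : E3) :
    VV (zz a b t) R x = t / ‖x - R a‖ + t / ‖x - R b‖ := by
  have := sum_zz hab t (fun j => ‖x - R j‖⁻¹)
  unfold VV
  simp only [div_eq_mul_inv]
  exact this

lemma UU_zz (hab : a < b) (t : ℝ) (R : Fin k → E3) : UU' (zz a b t) R = t ^ 2 / ‖R a - R b‖ := by
  unfold UU'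
  have e : ∀ i : Fin k, ∑ j ∈ Finset.Ioi i, zz a b t i * zz a b t j / ‖R i - R j‖
      = zz a b t i * ∑ j, zz a b t j * (if i < j then ‖R i - R j‖⁻¹ else 0) := by
    intro i
    rw [Finset.mul_sum]
    rw [← Finset.sum_filter_add_sum_filter_not Finset.univ (fun j => i < j)]
    have h2 : ∑ j ∈ Finset.univ.filter (fun j => ¬ i < j),
        zz a b t i * (zz a b t j * (if i < j then ‖R i - R j‖⁻¹ else 0)) = 0 := by
      refine Finset.sum_eq_zero (fun j hj => ?_)
      rw [Finset.mem_filter] at hj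
      rw [if_neg hj.2]; ring
    rw [h2, add_zero]
    have h3 : Finset.univ.filter (fun j => i < j) = Finset.Ioi i := by
      ext j; simp
    rw [h3]
    refine Finset.sum_congr rfl (fun j hj => ?_)
    rw [Finset.mem_Ioi] at hj
    rw [if_pos hj]
    ring
  rw [Finset.sum_congr rfl (fun i _ => e i), sum_zz hab t, sum_zz hab t, sum_zz hab t]
  rw [if_neg (lt_irrefl a), if_pos hab, if_neg (not_lt.2 hab.le), if_neg (lt_irrefl b)]
  ring

lemma sum_atomic (hab : a < b) (t : ℝ) : ∑ j, atomic (zz a b t j) = 2 * atomic t := by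
  have e : ∀ j, atomic (zz a b t j) = zz a b 1 j * atomic t := by
    intro j
    unfold zz
    split_ifs
    · rw [one_mul]
    · rw [zero_mul, atomic_zero]
  rw [Finset.sum_congr rfl (fun j _ => e j), ← Finset.sum_mul, sum_zz1 hab]
  ring

/-- upper bound, uniform in the charge -/
lemma upper (hab : a < b) {R : Fin k → E3} (hR : Function.Injective R) {t : ℝ} (ht : 0 < t) :
    excess R (zz a b t) ≤ 2 * (CC / (‖R a - R b‖ / 2) ^ 7) := by
  have hD : 0 < ‖R a - R b‖ := by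
    rw [norm_pos_iff, sub_ne_zero]
    exact fun h => hab.ne (hR h)
  set l := ‖R a - R b‖ / 2 with hl
  have hl0 : 0 < l := by positivity
  refine le_of_forall_pos_le_add (fun ε hε => ?_)
  obtain ⟨τ, hA, hrad, hs, hm, hτ⟩ := confine ht hl0 (half_pos hε)
  have h1 : AF t τ ≤ atomic t + CC / l ^ 7 + ε / 2 := by
    have h2 : AF t τ - CC / l ^ 7 - ε / 2 ≤ atomic t := by
      rw [atomic_eq ht.le]
      refine le_csInf (VL_ne _ _ ht.le) ?_
      rintro E ⟨σ, h3, h4, rfl⟩
      rw [AF_eq]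
      have := hτ σ h3 h4
      linarith
    linarith
  have h2 := two_energy hA hrad hs (a := R a) (b := R b) hl0 (by rw [hl]; linarith) hm
  have h3 := VL_le (R := R) (zz_nonneg (a := a) (b := b) ht.le) (two_adm hA (R a) (R b))
  rw [two_mass hA, hm] at h3
  have h4 : EF (zz a b t) R (two τ (R a) (R b)) + t ^ 2 / ‖R a - R b‖ = 2 * AF t τ := by
    rw [← h2]
    unfold EF
    simp_rw [VV_zz hab t R]
  unfold excess
  rw [neutral_eq R (zz_nonneg ht.le), sum_atomic hab, sum_zz1 hab, UU_zz hab]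
  linarith

/-- positivity for a small charge -/
lemma lower (hab : a < b) {R : Fin k → E3} (hR : Function.Injective R) :
    ∃ t : ℝ, 0 < t ∧ 0 < excess R (zz a b t) := by
  have hD : 0 < ‖R a - R b‖ := by
    rw [norm_pos_iff, sub_ne_zero]
    exact fun h => hab.ne (hR h)
  set D := ‖R a - R b‖ with hDdef
  obtain ⟨K, hK, hlow⟩ := low hD
  set s : ℝ := 1 / (2 * D * (K + 1)) with hs
  have hs0 : 0 < s := by positivity
  refine ⟨s ^ 2, by positivity, ?_⟩
  have ht : 0 ≤ s ^ 2 := by positivity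
  have e1 : (s ^ 2) ^ (5/2 : ℝ) = s ^ 5 := by
    rw [← Real.rpow_natCast s 2, ← Real.rpow_mul hs0.le, ← Real.rpow_natCast s 5]
    norm_num
  have h1 : -((s ^ 2) ^ 2 / (2 * D)) - K * s ^ 5 ≤ VL (zz a b (s ^ 2)) R (∑ j, zz a b (s ^ 2) j) := by
    refine le_csInf (VL_ne _ _ (Finset.sum_nonneg (fun j _ => zz_nonneg ht j))) ?_
    rintro E ⟨ρ, h3, h4, rfl⟩
    rw [sum_zz1 hab] at h4
    have h5 := hlow (R a) (R b) (s ^ 2) ht ρ h3 h4
    rw [e1] at h5
    unfold EF
    simp_rw [VV_zz hab (s ^ 2) R]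
    exact h5
  have h2 := atomic_nonpos ht
  unfold excess
  rw [neutral_eq R (zz_nonneg ht), sum_atomic hab, UU_zz hab, ← hDdef]
  have h3 : K * s ^ 5 < (s ^ 2) ^ 2 / (2 * D) := by
    have h4 : K * s < 1 / (2 * D) := by
      rw [hs, mul_one_div, div_lt_div_iff₀ (by positivity) (by positivity)]
      nlinarith
    calc K * s ^ 5 = (K * s) * s ^ 4 := by ring
      _ < 1 / (2 * D) * s ^ 4 := mul_lt_mul_of_pos_right h4 (by positivity)
      _ = (s ^ 2) ^ 2 / (2 * D) := by ring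
  have h5 : (s ^ 2) ^ 2 / D = 2 * ((s ^ 2) ^ 2 / (2 * D)) := by field_simp
  linarith

lemma not_superadd (hab : a < b) {R : Fin k → E3} (hR : Function.Injective R) : ¬ SuperAdd (excess R) := by
  intro hS
  obtain ⟨t, ht, hpos⟩ := lower hab hR
  set c := excess R (zz a b t) with hc
  have key : ∀ n : ℕ, ((n : ℝ) + 1) * c ≤ excess R (zz a b (((n : ℝ) + 1) * t)) := by
    intro n
    induction n with
    | zero => simp [hc]
    | succ n ih =>
      have h1 := hS (zz a b (((n : ℝ) + 1) * t)) (zz a b t) (zz_nonneg (by positivity)) (zz_nonneg ht.le)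
      rw [zz_add] at h1
      have e : ((n : ℝ) + 1) * t + t = (((n + 1 : ℕ) : ℝ) + 1) * t := by push_cast; ring
      rw [e] at h1
      push_cast at h1 ⊢
      linarith
  set B := 2 * (CC / (‖R a - R b‖ / 2) ^ 7) with hB
  obtain ⟨n, hn⟩ := exists_nat_gt (B / c)
  have h1 := key n
  have h2 := upper hab hR (t := ((n : ℝ) + 1) * t) (by positivity)
  rw [div_lt_iff₀ hpos] at hn
  nlinarith

end two_nuclei

/-! ### one nucleus -/

lemma excess_one {R : Fin 1 → E3} {z : Fin 1 → ℝ} (hz : ∀ j, 0 ≤ z j) : excess R z = 0 := by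
  have e0 : ∀ (S : Fin 1 → E3), UU' z S = 0 := by
    intro S; unfold UU'; simp
  unfold excess
  have hz' : z = fun _ => z 0 := by funext j; rw [Subsingleton.elim j 0]
  rw [Fin.sum_univ_one, atomic_eq (hz 0), neutral_eq R hz, e0, add_zero, Fin.sum_univ_one]
  have key : ∀ (S T : Fin 1 → E3) (ρ : E3 → ℝ), Adm ρ → ∃ σ, Adm σ ∧ ∫ x, σ x = ∫ x, ρ x ∧
      EF (fun _ => z 0) T σ = EF (fun _ => z 0) S ρ := by
    intro S T ρ hρ
    set v : E3 := T 0 - S 0 with hv
    refine ⟨fun x => ρ (x - v), adm_shift hρ v, integral_sub_right_eq_self _ _, ?_⟩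
    unfold EF
    have a1 : ∫ x, ρ (x - v) ^ (5/3 : ℝ) = ∫ x, ρ x ^ (5/3 : ℝ) :=
      integral_sub_right_eq_self (fun x => ρ x ^ (5/3 : ℝ)) v
    have a2 : ∫ x, VV (fun _ => z 0) T x * ρ (x - v) = ∫ x, VV (fun _ => z 0) S x * ρ x := by
      rw [← integral_sub_right_eq_self (fun x => VV (fun _ => z 0) S x * ρ x) v]
      refine integral_congr_ae (Eventually.of_forall (fun x => ?_))
      simp only [VV, Finset.univ_unique, Finset.sum_singleton, Fin.default_eq_zero]
      congr 3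
      rw [hv]; abel
    have a3 : ∫ x, ρ (x - v) * pot (fun y => ρ (y - v)) x = ∫ x, ρ x * pot ρ x := by
      simp_rw [pot_shift]
      exact integral_sub_right_eq_self (fun x => ρ x * pot ρ x) v
    rw [a1, a2, a3]
  have : VL z R (z 0) = VL (k := 1) (fun _ => z 0) (fun _ => 0) (z 0) := by
    unfold VL
    congr 1
    ext E
    constructor
    · rintro ⟨ρ, h1, h2, rfl⟩
      obtain ⟨σ, h3, h4, h5⟩ := key R (fun _ => 0) ρ h1
      exact ⟨σ, h3, h4.trans h2, by rw [h5, ← hz']⟩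
    · rintro ⟨ρ, h1, h2, rfl⟩
      obtain ⟨σ, h3, h4, h5⟩ := key (fun _ => 0) R ρ h1
      exact ⟨σ, h3, h4.trans h2, by rw [← h5, ← hz']⟩
  rw [this, sub_self]

/-- **The function `e - ∑ e^at` is superadditive if and only if there is only one nucleus.** For all
`k ≥ 2` and all distinct `R_1, …, R_k` superadditivity fails. -/
theorem result : ∀ (k : ℕ) (R : Fin k → EuclideanSpace ℝ (Fin 3)), 1 ≤ k → Function.Injective R →
    (SuperAdd (excess R) ↔ k = 1) := by
  intro k R hk hR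
  constructor
  · intro hS
    by_contra hne
    have h2 : 1 < k := by omega
    exact not_superadd (a := ⟨0, by omega⟩) (b := ⟨1, h2⟩) (by rw [Fin.lt_def]; norm_num) hR hS
  · rintro rfl z₁ z₂ h1 h2
    rw [excess_one h1, excess_one h2, excess_one (z := z₁ + z₂) (fun j => add_nonneg (h1 j) (h2 j)), add_zero]

end Pool.Agent.Results.MP_f156ce_mp.NotSuperadditive
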